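import Pool.Agent.H27.JtE

/-! Congruences modulo 8 and 16 for signed part sums over partitions into distinct parts. -/

namespace Pool.Agent.Results.MP_496c03_nt.Full
open Finset PowerSeries TrivSqZeroExt DualNumber Pool.Agent.H27.Jt

set_option maxHeartbeats 200000

/-- Sum of the odd entries minus sum of the even entries. -/
def w (s : Multiset ℕ) : ℤ := ((s.filter Odd).sum : ℤ) - ((s.filter Even).sum : ℤ)

/-- The sum of `w` over the partitions of `m` into distinct parts. -/
def DSOME (m : ℕ) : ℤ := ∑ p : m.Partition with p.parts.Nodup, w p.parts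

theorem prod_w {A : Type} [CommRing A] {x : A} (hx : x * x = 0) (s : Multiset ℕ) :
    (s.map fun i => (if Odd i then 1 + x else 1 + -x) ^ i).prod = 1 + w s * x := by
  induction s using Multiset.induction_on with
  | empty => simp [w]
  | cons i s ih =>
    rw [Multiset.map_cons, Multiset.prod_cons, ih]
    by_cases h : Odd i
    · have e : w (i ::ₘ s) = i + w s := by simp [w, h, Nat.not_even_iff_odd.mpr h]; ring
      rw [if_pos h, one_add_pow hx, e]
      push_cast
      linear_combination i * w s * hx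
    · have e : w (i ::ₘ s) = -i + w s := by simp [w, h, Nat.not_odd_iff_even.mp h]; ring
      rw [if_neg h, one_add_pow (by simpa using hx), e]
      push_cast
      linear_combination -i * w s * hx

theorem coeff_gf {A : Type} [CommRing A] {x : A} (hx : x * x = 0) (m : ℕ) :
    ∃ c : ℕ, coeff m (Nat.Partition.genFun fun i c => if c = 1 then (if Odd i then 1 + x else 1 + -x) ^ i else 0) =
      c + DSOME m * x := by
  refine ⟨#{p : m.Partition | p.parts.Nodup}, ?_⟩
  rw [Nat.Partition.coeff_genFun, DSOME, card_eq_sum_ones]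
  push_cast
  rw [sum_mul, ← sum_add_distrib, sum_filter]
  refine sum_congr rfl fun p _ => ?_
  simp only [Finsupp.prod, Multiset.toFinsupp_support, Multiset.toFinsupp_apply]
  split_ifs with h
  · rw [← prod_w hx p.parts, prod_multiset_map_count]
    refine prod_congr rfl fun i hi => ?_
    simp only [Multiset.count_eq_one_of_mem h (Multiset.mem_toFinset.mp hi), if_true, pow_one]
  · rw [Multiset.nodup_iff_count_eq_one] at h
    push Not at h
    obtain ⟨i, hi, h⟩ := h
    exact prod_eq_zero (Multiset.mem_toFinset.mpr hi) (if_neg h)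

variable {R : Type} [CommRing R]

noncomputable def Op (R : Type) [CommRing R] (M : ℕ) : R⟦X⟧ := ∏ i ∈ range M, (1 + X ^ (2 * i + 1))
noncomputable def Ep (R : Type) [CommRing R] (M : ℕ) : R⟦X⟧ := ∏ i ∈ range M, (1 + X ^ (2 * i + 2))

theorem link (R : Type) [CommRing R] (m : ℕ) : ∃ M, m < M ∧
    coeff m (Ep R (M + 1) * D (Op R (M + 1)) - Op R (M + 1) * D (Ep R (M + 1))) = DSOME m := by
  have hx : (ε : R[ε]) * ε = 0 := eps_mul_eps
  obtain ⟨N, h⟩ := gf2 (fun i => (if Odd i then 1 + ε else 1 + -ε : R[ε]) ^ i) (m + 1)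
  refine ⟨N + m + 1, by omega, ?_⟩
  have h := X_pow_dvd_iff.mp (h (2 * (N + m + 1 + 1)) (by omega)) m (by omega)
  generalize N + m + 1 + 1 = L at *
  let ι := inlHom R R
  have e : ∀ L, ∏ i ∈ range (2 * L), (1 + C ((if Odd (i + 1) then 1 + ε else 1 + -ε : R[ε]) ^ (i + 1)) * X ^ (i + 1)) =
      rescale (1 + ε) (PowerSeries.map ι (Op R L)) * rescale (1 + -ε) (PowerSeries.map ι (Ep R L)) := fun L => by
    induction L with
    | zero => simp [Op, Ep]
    | succ L ih =>
      rw [Nat.mul_succ, prod_range_succ, prod_range_succ, ih, if_pos (odd_two_mul_add_one L),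
        if_neg (by simp [Nat.odd_add_one])]
      simp only [Op, Ep, prod_range_succ, map_mul, map_add, map_one, map_pow, map_X, rescale_X, mul_pow]
      ring
  have cc : (C ε * C ε : R[ε]⟦X⟧) = 0 := by rw [← map_mul, hx, map_zero]
  obtain ⟨c, hc⟩ := coeff_gf hx m
  rw [e, resc ι hx, resc ι (show -ε * -ε = 0 by simp), map_sub, hc, sub_eq_zero, map_neg,
    show ∀ a b a' b' : R[ε]⟦X⟧, (a + C ε * a') * (b + -C ε * b') = a * b + C ε * (b * a' - a * b') from
      fun a b a' b' => by linear_combination -a' * b' * cc] at h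
  have h4 := congrArg snd h
  simp only [← map_mul, ← map_sub (PowerSeries.map ι)] at h4
  generalize Ep R L * D (Op R L) - Op R L * D (Ep R L) = F, Op R L * Ep R L = G at *
  simpa [ι] using h4.symm

theorem D_mul (F G : R⟦X⟧) : D (F * G) = F * D G + G * D F := by
  simp only [D_eq, Derivation.leibniz, smul_eq_mul]
  ring

theorem D_lin (s : R) (F G : R⟦X⟧) : D (1 + 2 * F + 2 * C s * G) = 2 * D F + 2 * C s * D G := by
  simp only [two_mul, add_mul, D_eq, map_add, Derivation.leibniz, Derivation.map_one_eq_zero, derivative_C,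
    smul_eq_mul]
  ring

theorem C_th (c : R) (M : ℕ) (e : ℤ → ℤ) (v : ℤ → R) : C c * th M e v = th M e fun y => c * v y := by
  simp only [th, mul_sum, map_mul, mul_assoc]

theorem th_sub (M : ℕ) (e : ℤ → ℤ) (u v : ℤ → R) : th M e u - th M e v = th M e fun y => u y - v y := by
  simp only [th, ← sum_sub_distrib, map_sub, sub_mul]

theorem sg_if : sg R = fun y => if y % 2 = 0 then 1 else -1 := by
  ext y
  simp only [sg, Int.even_iff]

theorem gauss' (M : ℕ) :
    (X : R⟦X⟧) ^ M ∣ P (X ^ 2) M * Op R M ^ 2 - th M e1 (fun y => if y % 2 = 0 then 1 else 1) := by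
  have h := map_dvd (rescale (-1 : R)) (gauss (R := R) M)
  rw [map_pow, rescale_X, mul_pow] at h
  convert (dvd_mul_left _ _).trans h using 1
  rw [map_sub, map_mul, map_pow]
  congr 2
  · simp [P, rescale_X]
  · simp only [O, Op, map_prod, map_add, map_one, map_pow, rescale_X, map_neg,
      neg_mul, one_mul, (odd_two_mul_add_one _).neg_pow, sub_eq_add_neg, neg_neg]
  · ext N
    simp only [th, coeff_rescale, map_sum, coeff_C_mul, coeff_X_pow, mul_sum, ite_self]
    refine sum_congr rfl fun y _ => ?_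
    split_ifs with h
    · have : Even N ↔ Even y := by
        rw [← Int.even_coe_nat, h, Int.toNat_of_nonneg (b1 y).1, e1, Int.even_mul, or_self]
      by_cases h : Even y
      · simp [sg, h, (this.mpr h).neg_one_pow]
      · simp [sg, h, (Nat.not_even_iff_odd.mp (mt this.mp h)).neg_one_pow]
    · simp

theorem QO (M : ℕ) : Op R M * Ep R M * O R M * P (X ^ 2) M = P (X ^ 2) (2 * M) := by
  induction M with
  | zero => simp [Op, Ep, O, P]
  | succ M ih =>
    rw [Nat.mul_succ, P_succ, P_succ, P_succ, ← ih]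
    simp only [Op, Ep, O, prod_range_succ]
    ring

theorem main (n : ℕ) (h5 : n % 5 = 1) (h25 : n % 25 ≠ 1) (c : ZMod 16)
    (hc : ∀ k l : ℤ, (k + l) % 4 = 3 → c * ((6 * k + 1) * (4 + 30 * n) - (6 * l + 1) * (30 * n)) = 0) :
    c * DSOME n = 0 := by
  obtain ⟨L, hL, h⟩ := link (ZMod 16) n
  have h9 := (five (R := ZMod 16) L).2
  have hn : n < L + 1 := by omega
  generalize L + 1 = M at *
  have z : (16 : ZMod 16) = 0 := rfl
  have z' : (16 : (ZMod 16)⟦X⟧) = 0 := by rw [show (16 : (ZMod 16)⟦X⟧) = C 16 from rfl, z, map_zero]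
  have h1 : (X : (ZMod 16)⟦X⟧) ^ M ∣ Op _ M * Ep _ M * O _ M - 1 := by
    rw [← (P_unit two_ne_zero M).dvd_mul_right, sub_mul, QO, one_mul]
    exact (pow_dvd_pow _ (by omega)).trans (pow_mul (X : (ZMod 16)⟦X⟧) 2 _ ▸ P_sub (by omega : M ≤ 2 * M))
  have h2 := D_dvd h1
  have h3 := gauss (R := ZMod 16) M
  have h4 := gauss' (R := ZMod 16) M
  have e3' := th_half (R := ZMod 16) M (-1)
  rw [sg_if, e3'] at h3
  rw [th_half] at h4
  have h5' := D_dvd h3
  have h6 := D_dvd h4
  have h7 : 4 * D (th M e1 (wo (ZMod 16))) = 4 * th M e1 (wo (ZMod 16)) := by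
    rw [D_th _ b1, show (4 : (ZMod 16)⟦X⟧) = C 4 from rfl, C_th, C_th]
    congr 1
    ext y
    unfold wo e1
    split_ifs with h
    · obtain ⟨u, rfl⟩ : ∃ u, y = 2 * u + 1 := ⟨y / 2, by omega⟩
      push_cast
      linear_combination (u * u + u) * z
    · simp
  have h8 : 8 * D (th M e1 (we (ZMod 16))) = 0 := by
    rw [D_th _ b1, show (8 : (ZMod 16)⟦X⟧) = C 8 from rfl, C_th, th]
    refine sum_eq_zero fun y _ => ?_
    unfold we e1
    split_ifs with h
    · obtain ⟨u, rfl⟩ : ∃ u, y = 2 * u := ⟨y / 2, by omega⟩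
      rw [show (8 * (((2 * u * (2 * u) : ℤ) : ZMod 16) * 1)) = 0 by push_cast; linear_combination 2 * u * u * z]
      simp
    · simp
  rw [D_lin, D_mul, sq (O _ _), D_mul] at h5'
  rw [D_lin, D_mul, sq (Op _ _), D_mul] at h6
  rw [D_mul, D_mul, show D (1 : (ZMod 16)⟦X⟧) = 0 by simp [D_eq]] at h2
  rw [P_split] at h9
  obtain ⟨Z1, s1⟩ := sq_zero hn h5 h25 (fun k => (6 * k + 1 : ZMod 16)) (wo _)
  obtain ⟨Z2, s2⟩ := sq_zero hn h5 h25 (fun k => (6 * k + 1 : ZMod 16)) fun y => we _ y - wo _ y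
  have hl := lat hn h5 h25 c hc
  have c1 := coeff_th M n b3 b1 (fun k => (6 * k + 1 : ZMod 16)) (wo _)
  have c2 := coeff_th M n b3 b1 (fun k => (6 * k + 1 : ZMod 16)) fun y => if y % 2 = 0 then 1 else -1
  have c3 := coeff_th M n b3 b1 (fun k => (6 * k + 1 : ZMod 16)) fun y => we _ y - wo _ y
  rw [← th_sub] at s2 c3
  rw [e3'] at c2
  rw [show ∀ (S : Finset (ℤ × ℤ)) (u v x y : ℤ × ℤ → ZMod 16), ∑ p ∈ S, u p * (4 * v p - 3 * n * (x p + 8 * y p)) =
      4 * ∑ p ∈ S, u p * v p - 3 * n * (∑ p ∈ S, u p * x p + 8 * ∑ p ∈ S, u p * y p) from fun S u v x y => by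
        simp only [mul_sum, ← sum_add_distrib, ← sum_sub_distrib]
        exact sum_congr rfl fun _ _ => by ring, ← c1, ← c2, ← c3] at hl
  clear c1 c2 c3
  have hu := P_unit (R := ZMod 16) two_ne_zero M
  generalize th M e1 (wo (ZMod 16)) = o, th M e1 (we (ZMod 16)) = a, P (X ^ 2 : (ZMod 16)⟦X⟧) M = f,
    th M e3 (fun k => (6 * k + 1 : ZMod 16)) = t, Op (ZMod 16) M = p, Ep (ZMod 16) M = E, O (ZMod 16) M = m at *
  let π := Ideal.Quotient.mk (Ideal.span {(X : (ZMod 16)⟦X⟧) ^ M})
  have key := alg (p := π p) (m := π m) (E := π E) (f := π f) (dp := π (D p)) (dm := π (D m)) (dE := π (D E))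
    (df := π (D f)) (a := π a) (o := π o) (da := π (D a)) (dq := π (D o)) (t := π t) 
    (by simpa only [map_ofNat, map_zero] using congrArg π z')
  simp only [← Ideal.mem_span_singleton, ← Ideal.Quotient.eq, map_mul, map_pow, map_add, map_one, map_neg,
    map_ofNat, map_zero] at h1 h2 h3 h4 h5' h6 h9
  obtain ⟨k1, k2⟩ := key h1 (by linear_combination h2) (by linear_combination h3) (by linear_combination h4)
    (by linear_combination h5') (by linear_combination h6) (by simpa only [map_mul, map_ofNat] using congrArg π h7)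
    (by simpa only [map_mul, map_ofNat, map_zero] using congrArg π h8)
    (((hu.map π).pow 2).mul_right_cancel (by linear_combination -h9))
  have k3 : X ^ M ∣ C 4 * (E * D p) + C 2 * (p * D E) - (C 4 * (t * o) + C 8 * (t * o ^ 2)) := by
    simp only [← Ideal.mem_span_singleton, ← Ideal.Quotient.eq, map_mul, map_pow, map_add, map_ofNat]
    linear_combination k1
  have k4 : X ^ M ∣ p * E - (t * (1 + 2 * a + 2 * C (-1) * o) + C 8 * (t * (a - o)) + C 8 * (t * (a - o) ^ 2)) := by
    simp only [← Ideal.mem_span_singleton, ← Ideal.Quotient.eq, map_mul, map_pow, map_add, map_ofNat, map_sub,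
      map_neg, map_one]
    linear_combination k2
  have k5 := X_pow_dvd_iff.mp k3 n hn
  have k6 := X_pow_dvd_iff.mp k4 n hn
  have k7 := congrArg (coeff n) (D_mul p E)
  simp only [map_sub, map_add, coeff_C_mul, s1, s2] at h k5 k6
  rw [D, coeff_mk, map_add] at k7
  linear_combination hl - c * h + c * k5 - 3 * n * c * k6 + 3 * c * k7 + c * (Z1 - 3 * n * Z2) * z

theorem result (n : ℕ) : (8 : ℤ) ∣ DSOME (50 * n + 21) ∧ (16 : ℤ) ∣ DSOME (100 * n + 71) := by
  have z : (16 : ZMod 16) = 0 := rfl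
  have d : ∀ a : ℤ, (a : ZMod 16) = 0 → (16 : ℤ) ∣ a := fun a => (ZMod.intCast_zmod_eq_zero_iff_dvd a 16).mp
  constructor
  · have h := main (50 * n + 21) (by omega) (by omega) 2 fun k l h => by
      obtain ⟨j, rfl⟩ : ∃ j, l = 4 * j + 3 - k := ⟨(k + l) / 4, by omega⟩
      push_cast
      linear_combination (3 * k + 45 * (50 * n + 21) * (k - 2 * j) - 3375 * n - 1417) * z
    have := d (2 * DSOME (50 * n + 21)) (by exact_mod_cast h)
    omega
  · have h := main (100 * n + 71) (by omega) (by omega) 1 fun k l h => by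
      obtain ⟨j, rfl⟩ : ∃ j, l = 4 * j + 3 - k := ⟨(k + l) / 4, by omega⟩
      push_cast
      linear_combination ((1599 + 2250 * n) * k - 45 * (100 * n + 71) * j - 3375 * n - 2396) * z
    exact d _ (by simpa using h)

end Pool.Agent.Results.MP_496c03_nt.Full
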